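import Mathlib

set_option autoImplicit false
set_option linter.unusedVariables false

namespace Pool.Agent.DPRE

open Filter Topology Finset

section general

variable {G : Type} [Group G] [Fintype G] [DecidableEq G]

/-- convolution powers as in the statement -/
noncomputable def P (p : G → ℝ) (k : ℕ) (g : G) : ℝ :=
  ∑ f ∈ (Finset.univ : Finset (Fin k → G)).filter (fun f => (List.ofFn f).prod = g), ∏ i, p (f i)

theorem P_zero (p : G → ℝ) (g : G) : P p 0 g = if (1 : G) = g then 1 else 0 := by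
  unfold P
  by_cases h : (1 : G) = g
  · simp [h]
  · simp [h]

theorem P_succ (p : G → ℝ) (k : ℕ) (g : G) :
    P p (k + 1) g = ∑ h, p h * P p k (h⁻¹ * g) := by
  unfold P
  rw [Finset.sum_filter]
  rw [← (Fin.consEquiv (fun _ : Fin (k + 1) => G)).sum_comp]
  rw [Fintype.sum_prod_type]
  refine Finset.sum_congr rfl fun h _ => ?_
  rw [Finset.mul_sum, Finset.sum_filter]
  refine Finset.sum_congr rfl fun f _ => ?_
  have h1 : (List.ofFn (Fin.consEquiv (fun _ : Fin (k + 1) => G) (h, f))).prod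
      = h * (List.ofFn f).prod := by
    simp [Fin.consEquiv, List.ofFn_succ]
  have h2 : ∏ i, p (Fin.consEquiv (fun _ : Fin (k + 1) => G) (h, f) i)
      = p h * ∏ i, p (f i) := by
    simp [Fin.consEquiv, Fin.prod_univ_succ]
  rw [h1, h2]
  by_cases hh : h * (List.ofFn f).prod = g
  · have : (List.ofFn f).prod = h⁻¹ * g := by rw [← hh]; group
    simp [hh, this]
  · have : ¬ (List.ofFn f).prod = h⁻¹ * g := by
      intro h3; apply hh; rw [h3]; group
    simp [hh, this]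

theorem P_sum (p : G → ℝ) (hp : ∑ g, p g = 1) (k : ℕ) : ∑ g, P p k g = 1 := by
  induction k with
  | zero => simp [P_zero]
  | succ k ih =>
    simp only [P_succ]
    rw [Finset.sum_comm]
    have : ∀ h : G, ∑ g, p h * P p k (h⁻¹ * g) = p h := by
      intro h
      rw [← Finset.mul_sum]
      have : ∑ g, P p k (h⁻¹ * g) = ∑ g, P p k g :=
        Equiv.sum_comp (Equiv.mulLeft h⁻¹) (fun g => P p k g)
      rw [this, ih, mul_one]
    simp only [this, hp]

theorem P_nonneg (p : G → ℝ) (hp : ∀ g, 0 ≤ p g) (k : ℕ) (g : G) : 0 ≤ P p k g :=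
  Finset.sum_nonneg fun f _ => Finset.prod_nonneg fun i _ => hp _

theorem P_mix (p0 : G → ℝ) (h0 : ∑ g, p0 g = 1) (c : ℝ) (k : ℕ) (g : G) :
    P (fun g => (1 - c) * p0 g + c * (1 / (Fintype.card G : ℝ))) k g =
      (1 - c) ^ k * P p0 k g + (1 - (1 - c) ^ k) * (1 / (Fintype.card G : ℝ)) := by
  have hG : (Fintype.card G : ℝ) ≠ 0 := by
    have : 0 < Fintype.card G := Fintype.card_pos
    positivity
  induction k generalizing g with
  | zero => simp [P_zero]
  | succ k ih =>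
    rw [P_succ, P_succ]
    simp only [ih]
    have e1 : ∑ h, P p0 k (h⁻¹ * g) = 1 := by
      rw [← P_sum p0 h0 k]
      exact ((Equiv.inv G).trans (Equiv.mulRight g)).sum_comp (fun g => P p0 k g)
    have e2 : ∀ h : G, ((1 - c) * p0 h + c * (1 / (Fintype.card G : ℝ))) *
        ((1 - c) ^ k * P p0 k (h⁻¹ * g) + (1 - (1 - c) ^ k) * (1 / (Fintype.card G : ℝ))) =
        (1 - c) ^ (k + 1) * (p0 h * P p0 k (h⁻¹ * g)) +
        ((1 - c) * (1 - (1 - c) ^ k) * (1 / (Fintype.card G : ℝ))) * p0 h +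
        (c * (1 / (Fintype.card G : ℝ)) * (1 - c) ^ k) * P p0 k (h⁻¹ * g) +
        c * (1 / (Fintype.card G : ℝ)) * (1 - (1 - c) ^ k) * (1 / (Fintype.card G : ℝ)) := by
      intro h; ring
    simp only [e2, Finset.sum_add_distrib, ← Finset.mul_sum, h0, e1]
    rw [Finset.sum_const, Finset.card_univ, nsmul_eq_mul]
    field_simp
    ring

/-- upper bound on total variation from a pointwise lower bound -/
theorem tv_le (μ : G → ℝ) (hμ : ∑ g, μ g = 1) (β : ℝ) (hβ : 0 ≤ β)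
    (h : ∀ g, (1 - β) * (1 / (Fintype.card G : ℝ)) ≤ μ g) :
    (1 / 2 : ℝ) * ∑ g, |μ g - 1 / (Fintype.card G : ℝ)| ≤ β := by
  have hG : (0 : ℝ) < (Fintype.card G : ℝ) := by
    have : 0 < Fintype.card G := Fintype.card_pos
    positivity
  have h1 : ∀ g, |μ g - 1 / (Fintype.card G : ℝ)| ≤
      (μ g - 1 / (Fintype.card G : ℝ)) + 2 * β * (1 / (Fintype.card G : ℝ)) := by
    intro g
    have h2 := h g
    have h3 : 0 ≤ β * (1 / (Fintype.card G : ℝ)) := by positivity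
    rw [abs_le]
    constructor <;> nlinarith
  have h2 := Finset.sum_le_sum (s := Finset.univ) (fun g _ => h1 g)
  rw [Finset.sum_add_distrib, Finset.sum_sub_distrib, hμ, Finset.sum_const, Finset.sum_const,
    Finset.card_univ, nsmul_eq_mul, nsmul_eq_mul] at h2
  have h3 : (Fintype.card G : ℝ) * (1 / (Fintype.card G : ℝ)) = 1 := by field_simp
  have h4 : (Fintype.card G : ℝ) * (2 * β * (1 / (Fintype.card G : ℝ))) = 2 * β := by
    field_simp
  rw [h3, h4] at h2
  linarith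

theorem tv_ge (μ : G → ℝ) (hμ : ∑ g, μ g = 1) (S : Finset G) :
    ∑ g ∈ S, μ g - (S.card : ℝ) / (Fintype.card G : ℝ) ≤
      (1 / 2 : ℝ) * ∑ g, |μ g - 1 / (Fintype.card G : ℝ)| := by
  have hG : (0 : ℝ) < (Fintype.card G : ℝ) := by
    have : 0 < Fintype.card G := Fintype.card_pos
    positivity
  have h0 : ∑ g, (μ g - 1 / (Fintype.card G : ℝ)) = 0 := by
    rw [Finset.sum_sub_distrib, hμ, Finset.sum_const, Finset.card_univ, nsmul_eq_mul]
    field_simp
    simp
  have h1 : ∑ g ∈ S, (μ g - 1 / (Fintype.card G : ℝ)) +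
      ∑ g ∈ Sᶜ, (μ g - 1 / (Fintype.card G : ℝ)) = 0 := by
    rw [Finset.sum_add_sum_compl]; exact h0
  have h2 : ∑ g ∈ S, |μ g - 1 / (Fintype.card G : ℝ)| +
      ∑ g ∈ Sᶜ, |μ g - 1 / (Fintype.card G : ℝ)| = ∑ g, |μ g - 1 / (Fintype.card G : ℝ)| :=
    Finset.sum_add_sum_compl _ _
  have h3 : ∑ g ∈ S, (μ g - 1 / (Fintype.card G : ℝ)) ≤
      ∑ g ∈ S, |μ g - 1 / (Fintype.card G : ℝ)| :=
    Finset.sum_le_sum fun g _ => le_abs_self _
  have h4 : -∑ g ∈ Sᶜ, (μ g - 1 / (Fintype.card G : ℝ)) ≤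
      ∑ g ∈ Sᶜ, |μ g - 1 / (Fintype.card G : ℝ)| := by
    rw [← Finset.sum_neg_distrib]
    exact Finset.sum_le_sum fun g _ => neg_le_abs _
  have h5 : ∑ g ∈ S, (μ g - 1 / (Fintype.card G : ℝ)) =
      ∑ g ∈ S, μ g - (S.card : ℝ) / (Fintype.card G : ℝ) := by
    rw [Finset.sum_sub_distrib, Finset.sum_const, nsmul_eq_mul]
    ring
  linarith

/-- push-forward of a uniform measure -/
noncomputable def push {Ω : Type} [Fintype Ω] (π : Ω → G) (g : G) : ℝ :=
  ((Finset.univ.filter fun ω => π ω = g).card : ℝ) / (Fintype.card Ω : ℝ)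

theorem P_push {Ω : Type} [Fintype Ω] [DecidableEq Ω] (π : Ω → G) (k : ℕ) (g : G) :
    P (push π) k g = ((Finset.univ.filter fun z : Fin k → Ω =>
      (List.ofFn (fun i => π (z i))).prod = g).card : ℝ) / (Fintype.card Ω : ℝ) ^ k := by
  unfold P push
  have h1 : ∀ f : Fin k → G, ∏ i, (((Finset.univ.filter fun ω => π ω = f i).card : ℝ) /
      (Fintype.card Ω : ℝ)) = ((Finset.univ.filter fun z : Fin k → Ω =>
        (fun i => π (z i)) = f).card : ℝ) / (Fintype.card Ω : ℝ) ^ k := by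
    intro f
    rw [Finset.prod_div_distrib, Finset.prod_const, Finset.card_univ, Fintype.card_fin]
    congr 1
    rw [← Nat.cast_prod, ← Fintype.card_piFinset]
    congr 2
    ext z
    simp [Fintype.mem_piFinset, funext_iff]
  simp only [h1]
  rw [← Finset.sum_div]
  congr 1
  rw [← Nat.cast_sum]
  congr 1
  rw [Finset.card_eq_sum_card_fiberwise (f := fun z : Fin k → Ω => fun i => π (z i))
    (t := Finset.univ.filter fun f : Fin k → G => (List.ofFn f).prod = g)]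
  · refine Finset.sum_congr rfl fun f hf => ?_
    congr 1
    ext z
    simp only [Finset.mem_filter, Finset.mem_univ, true_and] at hf ⊢
    constructor
    · intro h; exact ⟨by rw [h]; exact hf, h⟩
    · intro h; exact h.2
  · intro z hz
    simpa using hz

theorem push_sum {Ω : Type} [Fintype Ω] [Nonempty Ω] (π : Ω → G) : ∑ g, push π g = 1 := by
  unfold push
  rw [← Finset.sum_div, ← Nat.cast_sum]
  have h : ∑ g : G, (Finset.univ.filter fun ω => π ω = g).card = Fintype.card Ω := by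
    rw [← Finset.card_univ]
    exact (Finset.card_eq_sum_card_fiberwise (f := π) (s := Finset.univ) (t := Finset.univ)
      (by intro x _; simp)).symm
  rw [h]
  have : (Fintype.card Ω : ℝ) ≠ 0 := by
    have : 0 < Fintype.card Ω := Fintype.card_pos
    positivity
  field_simp

theorem push_nonneg {Ω : Type} [Fintype Ω] (π : Ω → G) (g : G) : 0 ≤ push π g := by
  unfold push; positivity

/-- the distance -/
noncomputable def dist (p : G → ℝ) (k : ℕ) : ℝ :=
  (1 / 2 : ℝ) * ∑ g : G, |P p k g - 1 / (Fintype.card G : ℝ)|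

noncomputable def mix (p0 : G → ℝ) (c : ℝ) : G → ℝ :=
  fun g => (1 - c) * p0 g + c * (1 / (Fintype.card G : ℝ))

theorem mix_sum (p0 : G → ℝ) (h0 : ∑ g, p0 g = 1) (c : ℝ) : ∑ g, mix p0 c g = 1 := by
  have hG : (Fintype.card G : ℝ) ≠ 0 := by
    have : 0 < Fintype.card G := Fintype.card_pos
    positivity
  unfold mix
  rw [Finset.sum_add_distrib, ← Finset.mul_sum, h0, Finset.sum_const, Finset.card_univ,
    nsmul_eq_mul]
  field_simp
  ring

theorem mix_nonneg (p0 : G → ℝ) (h0 : ∀ g, 0 ≤ p0 g) (c : ℝ) (hc : 0 ≤ c) (hc1 : c ≤ 1) (g : G) :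
    0 ≤ mix p0 c g := by
  unfold mix
  have := h0 g
  have h1 : 0 ≤ 1 - c := by linarith
  positivity

theorem dist_upper (p0 : G → ℝ) (h0 : ∑ g, p0 g = 1) (hn : ∀ g, 0 ≤ p0 g) (c : ℝ)
    (hc : 0 ≤ c) (hc1 : c ≤ 1) (k : ℕ) : dist (mix p0 c) k ≤ (1 - c) ^ k := by
  have h1 : 0 ≤ 1 - c := by linarith
  refine tv_le _ (P_sum _ (mix_sum p0 h0 c) k) _ (pow_nonneg h1 k) ?_
  intro g
  unfold mix
  rw [P_mix p0 h0]
  have := P_nonneg p0 hn k g
  have h2 : 0 ≤ (1 - c) ^ k * P p0 k g := mul_nonneg (pow_nonneg h1 k) this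
  linarith

theorem dist_upper2 (p0 : G → ℝ) (h0 : ∑ g, p0 g = 1) (hn : ∀ g, 0 ≤ p0 g) (c : ℝ)
    (hc : 0 ≤ c) (hc1 : c ≤ 1) (k : ℕ) (β : ℝ) (hβ : 0 ≤ β)
    (h : ∀ g, (1 - β) * (1 / (Fintype.card G : ℝ)) ≤ P p0 k g) : dist (mix p0 c) k ≤ β := by
  have h1 : 0 ≤ 1 - c := by linarith
  have h2 : (1 - c) ^ k ≤ 1 := pow_le_one₀ h1 (by linarith)
  refine tv_le _ (P_sum _ (mix_sum p0 h0 c) k) _ hβ ?_
  intro g
  unfold mix
  rw [P_mix p0 h0]
  have h3 := mul_le_mul_of_nonneg_left (h g) (pow_nonneg h1 k)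
  have h4 : 0 ≤ (1 / (Fintype.card G : ℝ)) := by positivity
  have h5 : 0 ≤ (1 - (1 - c) ^ k) * (β * (1 / (Fintype.card G : ℝ))) :=
    mul_nonneg (by linarith) (mul_nonneg hβ h4)
  nlinarith

theorem dist_lower (p0 : G → ℝ) (h0 : ∑ g, p0 g = 1) (hn : ∀ g, 0 ≤ p0 g) (c : ℝ)
    (hc : 0 ≤ c) (hc1 : c ≤ 1) (k : ℕ) (S : Finset G) (hS : ∀ g, g ∉ S → P p0 k g = 0) :
    (1 - c) ^ k - (S.card : ℝ) / (Fintype.card G : ℝ) ≤ dist (mix p0 c) k := by
  have h1 : 0 ≤ 1 - c := by linarith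
  have h2 : (1 - c) ^ k ≤ 1 := pow_le_one₀ h1 (by linarith)
  have h := tv_ge _ (P_sum _ (mix_sum p0 h0 c) k) S
  refine le_trans ?_ h
  have h3 : ∑ g ∈ S, P p0 k g = 1 := by
    rw [← P_sum p0 h0 k]
    exact Finset.sum_subset (Finset.subset_univ _) (fun g _ hg => hS g hg)
  have h4 : (1 - c) ^ k ≤ ∑ g ∈ S, P (mix p0 c) k g := by
    have h5 : ∑ g ∈ S, ((1 - c) ^ k * P p0 k g) ≤ ∑ g ∈ S, P (mix p0 c) k g := by
      refine Finset.sum_le_sum fun g _ => ?_
      unfold mix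
      rw [P_mix p0 h0]
      have : 0 ≤ (1 - (1 - c) ^ k) * (1 / (Fintype.card G : ℝ)) :=
        mul_nonneg (by linarith) (by positivity)
      linarith
    rw [← Finset.mul_sum, h3, mul_one] at h5
    exact h5
  linarith

end general

section vand

variable (T q : ℕ) [Fact q.Prime]

abbrev GG : Type := Multiplicative (Fin T → ZMod q)

/-- the step: a random point on a random line of the moment curve -/
def pi0 (z : ZMod q × ZMod q) : GG T q := Multiplicative.ofAdd (fun j => z.1 * z.2 ^ (j : ℕ))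

theorem prod_pi0 (k : ℕ) (z : Fin k → ZMod q × ZMod q) :
    (List.ofFn (fun i => pi0 T q (z i))).prod =
      Multiplicative.ofAdd (fun j : Fin T => ∑ i, (z i).1 * (z i).2 ^ (j : ℕ)) := by
  rw [List.prod_ofFn]
  unfold pi0
  rw [← ofAdd_sum]
  congr 1
  funext j
  simp

theorem cardG : (Fintype.card (GG T q) : ℝ) = (q : ℝ) ^ T := by
  have : Fintype.card (GG T q) = q ^ T := by
    rw [Fintype.card_congr (Multiplicative.toAdd : GG T q ≃ (Fin T → ZMod q))]
    simp [ZMod.card]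
  rw [this]; push_cast; rfl

theorem cardOm : (Fintype.card (ZMod q × ZMod q) : ℝ) = (q : ℝ) ^ 2 := by
  rw [Fintype.card_prod, ZMod.card]; push_cast; ring

theorem exists_x (g : Fin T → ZMod q) (y : Fin T → ZMod q) (hy : Function.Injective y) :
    ∃ x : Fin T → ZMod q, ∀ j : Fin T, ∑ i, x i * y i ^ (j : ℕ) = g j := by
  have hdet : (Matrix.vandermonde y).det ≠ 0 := Matrix.det_vandermonde_ne_zero_iff.2 hy
  have hu : IsUnit (Matrix.vandermonde y).det := isUnit_iff_ne_zero.2 hdet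
  refine ⟨Matrix.vecMul g (Matrix.vandermonde y)⁻¹, fun j => ?_⟩
  have h : Matrix.vecMul (Matrix.vecMul g (Matrix.vandermonde y)⁻¹) (Matrix.vandermonde y) = g := by
    rw [Matrix.vecMul_vecMul, Matrix.nonsing_inv_mul _ hu, Matrix.vecMul_one]
  have h2 := congrFun h j
  rw [← h2]
  simp [Matrix.vecMul, dotProduct, Matrix.vandermonde_apply]

theorem count_lower (g : GG T q) :
    q.descFactorial T ≤ (Finset.univ.filter fun z : Fin T → ZMod q × ZMod q =>
      (List.ofFn (fun i => pi0 T q (z i))).prod = g).card := by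
  have h1 : q.descFactorial T = (Finset.univ : Finset (Fin T ↪ ZMod q)).card := by
    rw [Finset.card_univ, Fintype.card_embedding_eq, ZMod.card, Fintype.card_fin]
  rw [h1]
  choose x hx using fun y : Fin T ↪ ZMod q => exists_x T q (Multiplicative.toAdd g) y y.injective
  refine Finset.card_le_card_of_injOn (fun y i => (x y i, y i)) ?_ ?_
  · intro y _
    simp only [Finset.coe_filter, Finset.mem_univ, true_and, Set.mem_ofPred_eq]
    rw [prod_pi0]
    have : (fun j : Fin T => ∑ i, x y i * y i ^ (j : ℕ)) = Multiplicative.toAdd g := by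
      funext j; exact hx y j
    show Multiplicative.ofAdd (fun j : Fin T => ∑ i, x y i * y i ^ (j : ℕ)) = g
    rw [this]
    rfl
  · intro y _ y' _ h
    ext i
    have := congrFun h i
    exact congrArg Prod.snd this

theorem P0_lower (hT : 1 ≤ T) (hq : T ≤ q) (g : GG T q) :
    (1 - (T : ℝ) ^ 2 / q) * (1 / (Fintype.card (GG T q) : ℝ)) ≤ P (push (pi0 T q)) T g := by
  rw [P_push, cardG, cardOm]
  have hq0 : (0 : ℝ) < q := by
    have := (Fact.out : q.Prime).pos
    exact_mod_cast this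
  have h1 : ((q : ℝ) - T) ^ T ≤ (q.descFactorial T : ℝ) := by
    have h2 := Nat.pow_sub_le_descFactorial q T
    have h3 : ((q : ℝ) - T) ^ T ≤ ((q + 1 - T : ℕ) : ℝ) ^ T := by
      have h4 : (q : ℝ) - T ≤ ((q + 1 - T : ℕ) : ℝ) := by
        rw [Nat.cast_sub (by omega)]
        push_cast
        linarith
      have h5 : (0 : ℝ) ≤ (q : ℝ) - T := by
        have : (T : ℝ) ≤ q := by exact_mod_cast hq
        linarith
      exact pow_le_pow_left₀ h5 h4 T
    refine h3.trans ?_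
    exact_mod_cast h2
  have h2 : (1 - (T : ℝ) ^ 2 / q) * (q : ℝ) ^ T ≤ ((q : ℝ) - T) ^ T := by
    have h3 : ((q : ℝ) - T) = q * (1 + (-(T : ℝ) / q)) := by field_simp; ring
    rw [h3, mul_pow, mul_comm]
    refine mul_le_mul_of_nonneg_left ?_ (by positivity)
    have h4 : (-2 : ℝ) ≤ -(T : ℝ) / q := by
      rw [le_div_iff₀ hq0]
      have : (T : ℝ) ≤ q := by exact_mod_cast hq
      linarith
    have h5 := one_add_mul_le_pow h4 T
    refine le_trans (le_of_eq ?_) h5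
    ring
  have h3 : ((Finset.univ.filter fun z : Fin T → ZMod q × ZMod q =>
      (List.ofFn (fun i => pi0 T q (z i))).prod = g).card : ℝ) ≥ (q.descFactorial T : ℝ) := by
    exact_mod_cast count_lower T q g
  rw [le_div_iff₀ (by positivity)]
  have h4 : (1 - (T : ℝ) ^ 2 / q) * (1 / (q : ℝ) ^ T) * ((q : ℝ) ^ 2) ^ T =
      (1 - (T : ℝ) ^ 2 / q) * (q : ℝ) ^ T := by
    rw [← pow_mul]
    have : (q : ℝ) ^ (2 * T) = (q : ℝ) ^ T * (q : ℝ) ^ T := by rw [two_mul, pow_add]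
    rw [this]
    field_simp
  rw [h4]
  linarith

theorem P0_support (k : ℕ) : ∃ S : Finset (GG T q), (S.card : ℝ) ≤ (q : ℝ) ^ (2 * k) ∧
    ∀ g, g ∉ S → P (push (pi0 T q)) k g = 0 := by
  refine ⟨Finset.univ.image fun z : Fin k → ZMod q × ZMod q =>
    (List.ofFn (fun i => pi0 T q (z i))).prod, ?_, ?_⟩
  · have h1 := Finset.card_image_le (s := (Finset.univ : Finset (Fin k → ZMod q × ZMod q)))
      (f := fun z : Fin k → ZMod q × ZMod q => (List.ofFn (fun i => pi0 T q (z i))).prod)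
    have h2 : (Finset.univ : Finset (Fin k → ZMod q × ZMod q)).card = q ^ (2 * k) := by
      rw [Finset.card_univ]
      simp [ZMod.card]
      rw [pow_mul, pow_two]
    rw [h2] at h1
    exact_mod_cast h1
  · intro g hg
    rw [P_push]
    have : (Finset.univ.filter fun z : Fin k → ZMod q × ZMod q =>
      (List.ofFn (fun i => pi0 T q (z i))).prod = g) = ∅ := by
      rw [Finset.filter_eq_empty_iff]
      intro z _ hz
      exact hg (Finset.mem_image.2 ⟨z, Finset.mem_univ _, hz⟩)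
    rw [this]
    simp

end vand

noncomputable def qq (n : ℕ) : ℕ := Classical.choose (Nat.exists_infinite_primes ((n + 1) ^ 3 + 4))

theorem qq_spec (n : ℕ) : (n + 1) ^ 3 + 4 ≤ qq n ∧ (qq n).Prime :=
  Classical.choose_spec (Nat.exists_infinite_primes ((n + 1) ^ 3 + 4))

instance (n : ℕ) : Fact (qq n).Prime := ⟨(qq_spec n).2⟩

noncomputable def p0 (n : ℕ) : GG (n + 1) (qq n) → ℝ := push (pi0 (n + 1) (qq n))

noncomputable def cc (n : ℕ) : ℝ := 1 / ((n : ℝ) + 1)

theorem cc_nonneg (n : ℕ) : 0 ≤ cc n := by unfold cc; positivity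
theorem cc_le (n : ℕ) : cc n ≤ 1 := by
  unfold cc
  rw [div_le_one (by positivity)]
  have : (0 : ℝ) ≤ n := Nat.cast_nonneg n
  linarith

noncomputable def D (n k : ℕ) : ℝ := dist (mix (p0 n) (cc n)) k

theorem D_upper (n k : ℕ) : D n k ≤ (1 - cc n) ^ k :=
  dist_upper _ (push_sum _) (push_nonneg _) _ (cc_nonneg n) (cc_le n) k

theorem D_nonneg (n k : ℕ) : 0 ≤ D n k := by
  unfold D dist
  have : 0 ≤ ∑ g : GG (n + 1) (qq n), |P (mix (p0 n) (cc n)) k g -
      1 / (Fintype.card (GG (n + 1) (qq n)) : ℝ)| := Finset.sum_nonneg fun g _ => abs_nonneg _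
  positivity

theorem D_T (n : ℕ) : D n (n + 1) ≤ 1 / ((n : ℝ) + 1) := by
  have hq := (qq_spec n).1
  have hcube : (n + 1) ≤ (n + 1) ^ 3 := Nat.le_self_pow (by norm_num) _
  have hqr : ((n : ℝ) + 1) ^ 3 ≤ (qq n : ℝ) := by
    have : (n + 1) ^ 3 ≤ qq n := by omega
    exact_mod_cast this
  have hq0 : (0 : ℝ) < (qq n : ℝ) := lt_of_lt_of_le (by positivity) hqr
  have h := dist_upper2 (p0 n) (push_sum _) (push_nonneg _) (cc n) (cc_nonneg n) (cc_le n) (n + 1)
    (((n + 1 : ℕ) : ℝ) ^ 2 / (qq n : ℝ)) (by positivity)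
    (fun g => P0_lower (n + 1) (qq n) (by omega) (by omega) g)
  refine h.trans ?_
  rw [div_le_div_iff₀ hq0 (by positivity)]
  push_cast
  nlinarith

theorem D_lower (n k : ℕ) (hn : 1 ≤ n) (hk : (k : ℝ) ≤ ((n : ℝ) + 1) / 4) : 1 / 2 ≤ D n k := by
  obtain ⟨S, hS1, hS2⟩ := P0_support (n + 1) (qq n) k
  have h := dist_lower (p0 n) (push_sum _) (push_nonneg _) (cc n) (cc_nonneg n) (cc_le n) k S hS2
  have hq := (qq_spec n).1
  have hq4 : (4 : ℝ) ≤ (qq n : ℝ) := by
    have : 4 ≤ qq n := by omega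
    exact_mod_cast this
  have hq0 : (0 : ℝ) < (qq n : ℝ) := by linarith
  have h2k : 2 * k + 1 ≤ n + 1 := by
    have h1 : (4 * k : ℝ) ≤ (n : ℝ) + 1 := by linarith
    have h2 : 4 * k ≤ n + 1 := by exact_mod_cast h1
    omega
  have h3 : (S.card : ℝ) / (Fintype.card (GG (n + 1) (qq n)) : ℝ) ≤ 1 / 4 := by
    rw [cardG]
    rw [div_le_iff₀ (by positivity)]
    have h4 : (qq n : ℝ) ^ (2 * k + 1) ≤ (qq n : ℝ) ^ (n + 1) :=
      pow_le_pow_right₀ (by linarith) h2k
    have h5 : (qq n : ℝ) ^ (2 * k + 1) = (qq n : ℝ) ^ (2 * k) * qq n := pow_succ _ _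
    have h6 : (0 : ℝ) ≤ (qq n : ℝ) ^ (2 * k) := by positivity
    nlinarith
  have h4 : (3 / 4 : ℝ) ≤ (1 - cc n) ^ k := by
    have h5 : (-2 : ℝ) ≤ -cc n := by linarith [cc_le n]
    have h6 := one_add_mul_le_pow h5 k
    have h7 : (k : ℝ) * cc n ≤ 1 / 4 := by
      unfold cc
      rw [mul_one_div, div_le_iff₀ (by positivity)]
      linarith
    have h8 : (1 + -cc n) = 1 - cc n := by ring
    rw [h8] at h6
    linarith
  unfold D
  linarith

theorem key (n k : ℕ) (h : (99 / 100 : ℝ) ≤ D n k) : (k : ℝ) ≤ ((n : ℝ) + 1) / 16 := by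
  by_contra hcon
  push Not at hcon
  have h1 := h.trans (D_upper n k)
  have h2 : 1 - cc n ≤ Real.exp (-cc n) := by
    have := Real.add_one_le_exp (-cc n)
    linarith
  have h3 : (1 - cc n) ^ k ≤ Real.exp (-cc n) ^ k :=
    pow_le_pow_left₀ (by linarith [cc_le n]) h2 k
  have h4 : Real.exp (-cc n) ^ k = Real.exp (-(k * cc n)) := by
    rw [← Real.exp_nat_mul]
    congr 1
    ring
  have h5 : (1 / 16 : ℝ) ≤ k * cc n := by
    unfold cc
    rw [mul_one_div, le_div_iff₀ (by positivity)]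
    linarith
  have h6 : Real.exp (-(k * cc n)) ≤ Real.exp (-(1 / 16)) := Real.exp_le_exp.2 (by linarith)
  have h7 : Real.exp (-(1 / 16 : ℝ)) ≤ 16 / 17 := by
    rw [Real.exp_neg]
    have h8 : (17 / 16 : ℝ) ≤ Real.exp (1 / 16) := by
      have := Real.add_one_le_exp (1 / 16 : ℝ)
      linarith
    rw [inv_le_comm₀ (Real.exp_pos _) (by norm_num)]
    norm_num at h8 ⊢
    exact h8
  rw [h4] at h3
  have : (99 / 100 : ℝ) ≤ 16 / 17 := by linarith
  norm_num at this

theorem main :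
    ¬ (∀ (G : ℕ → Type) [∀ n, Group (G n)] [∀ n, Fintype (G n)] [∀ n, DecidableEq (G n)]
    (p : ∀ n, G n → ℝ) (d : ℕ → ℕ → ℝ),
    (∀ n g, 0 ≤ p n g) → (∀ n, ∑ g, p n g = 1) →
    (∀ n k, d n k = (1 / 2 : ℝ) * ∑ g : G n,
        |(∑ f ∈ (Finset.univ : Finset (Fin k → G n)).filter (fun f => (List.ofFn f).prod = g),
            ∏ i, p n (f i)) - 1 / (Fintype.card (G n) : ℝ)|) →
    (∃ t : ℕ → ℝ, Tendsto t atTop atTop ∧ ∃ a b : ℝ, 0 < a ∧ a < b ∧
        Tendsto (fun n => d n ⌊b * t n⌋₊) atTop (𝓝 0) ∧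
        ∃ ε : ℝ, 0 < ε ∧ ∀ᶠ n in atTop, ε ≤ d n ⌊a * t n⌋₊) →
    ∃ s : ℕ → ℝ, Tendsto s atTop atTop ∧ ∀ ε : ℝ, 0 < ε → ε < 1 →
        Tendsto (fun n => d n ⌊(1 + ε) * s n⌋₊) atTop (𝓝 0) ∧
        Tendsto (fun n => d n ⌊(1 - ε) * s n⌋₊) atTop (𝓝 1)) := by
  intro H
  obtain ⟨s, hs, h⟩ := H (fun n => GG (n + 1) (qq n)) (fun n => mix (p0 n) (cc n)) D
    (fun n g => mix_nonneg _ (push_nonneg _) _ (cc_nonneg n) (cc_le n) g)
    (fun n => mix_sum _ (push_sum _) _)
    (fun n k => rfl)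
    ⟨fun n => (n : ℝ) + 1, tendsto_atTop_add_const_right _ _ tendsto_natCast_atTop_atTop,
      1 / 4, 1, by norm_num, by norm_num, by
        have h1 : ∀ n : ℕ, ⌊(1 : ℝ) * ((n : ℝ) + 1)⌋₊ = n + 1 := by
          intro n
          rw [one_mul]
          have : ((n : ℝ) + 1) = ((n + 1 : ℕ) : ℝ) := by push_cast; rfl
          rw [this, Nat.floor_natCast]
        simp only [h1]
        exact squeeze_zero (fun n => D_nonneg n _) D_T tendsto_one_div_add_atTop_nhds_zero_nat,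
      1 / 2, by norm_num, by
        filter_upwards [eventually_ge_atTop 1] with n hn
        refine D_lower n _ hn ?_
        refine (Nat.floor_le (by positivity)).trans ?_
        linarith⟩
  obtain ⟨h1, h2⟩ := h (1 / 2) (by norm_num) (by norm_num)
  have e1 := h1.eventually (gt_mem_nhds (show (0 : ℝ) < 1 / 2 by norm_num))
  have e2 := h2.eventually (lt_mem_nhds (show (99 / 100 : ℝ) < 1 by norm_num))
  have e3 := hs.eventually_ge_atTop 0
  obtain ⟨n, hn1, hn2, hn3, hn4⟩ := (e1.and (e2.and (e3.and (eventually_ge_atTop 48)))).exists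
  have h5 := key n _ hn2.le
  have h6 : (1 - 1 / 2) * s n < (⌊(1 - 1 / 2 : ℝ) * s n⌋₊ : ℝ) + 1 := Nat.lt_floor_add_one _
  have hn4' : (48 : ℝ) ≤ n := by exact_mod_cast hn4
  have h7 : (⌊(1 + 1 / 2 : ℝ) * s n⌋₊ : ℝ) ≤ (1 + 1 / 2) * s n :=
    Nat.floor_le (by positivity)
  have h8 := D_lower n ⌊(1 + 1 / 2 : ℝ) * s n⌋₊ (by omega) (by linarith)
  linarith


end Pool.Agent.DPRE
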